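import Pool.Agent.Helper61.FN.Tools
import Pool.Agent.Helper61.FN.Goals

/-!
# Project FN, packet FN-ALN
-/

set_option autoImplicit false

namespace Pool.Agent.Helper59.FN

open Finset Pool.Agent.Helper61.FN

theorem goalALN : G_ALN := by
  intro F k _ _ _ _ _ n lam v M ξ h hr hs ht h1 h4 h2
  have n0 := h.pos 0
  have n1 := h.pos 1
  have n2 := h.pos 2
  have n3 := h.pos 3
  have hM := h.nrm.M_pos
  have e0 : M + gr (mA 0) v = 0 := by
    refine h.nrm.dm0 ![1, 1, 1, 0, 0, 0] ?_ 0 ?_ fun j hj hj' ↦ ?_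
    · simp [Fin.sum_univ_succ, dA]
      positivity
    · rw [pr6]
      simp [mA, cA]
      refine ⟨⟨n0.ne', n1.ne'⟩, ?_⟩
      positivity
    · rw [gr6, gr6]
      rw [pr6] at hj'
      fin_cases j <;> simp [mA] at hj hj' ⊢ <;> omega
  have e5 : M + gr (mA 5) v = 0 := by
    refine h.nrm.dm0 ![0, 0, 1, 0, 1, 1] ?_ 5 ?_ fun j hj hj' ↦ ?_
    · simp [Fin.sum_univ_succ, dA]
      positivity
    · rw [pr6]
      simp [mA, cA]
      refine ⟨⟨n2.ne', n3.ne'⟩, ?_⟩
      positivity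
    · rw [gr6, gr6]
      rw [pr6] at hj'
      fin_cases j <;> simp [mA] at hj hj' ⊢ <;> omega
  have e3 : M + gr (mA 3) v = 0 := by
    refine h.nrm.dm0 ![0, 1, 1, 1, 1, 0] ?_ 3 ?_ fun j hj hj' ↦ ?_
    · simp [Fin.sum_univ_succ, dA]
      positivity
    · rw [pr6]
      simp [mA, cA]
      refine ⟨⟨n1.ne', n2.ne'⟩, ?_⟩
      positivity
    · rw [gr6, gr6]
      rw [pr6] at hj'
      fin_cases j <;> simp [mA] at hj hj' ⊢ <;> omega
  rw [gr6] at e0 e3 e5
  simp [mA] at e0 e3 e5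
  have s := h.sm
  have f0 : (v 0 : F) = M := by exact_mod_cast (by omega : v 0 = M)
  have f3 : (v 3 : F) = M := by exact_mod_cast (by omega : v 3 = M)
  have f5 : (v 5 : F) = M := by exact_mod_cast (by omega : v 5 = M)
  have f1 : (v 1 : F) = 2 * M := by exact_mod_cast (by omega : v 1 = 2 * M)
  have f4 : (v 4 : F) = 2 * M := by exact_mod_cast (by omega : v 4 = 2 * M)
  have f2 : (v 2 : F) = 3 * M := by exact_mod_cast (by omega : v 2 = 3 * M)
  rw [f0, f1, f2, f3, f4, f5] at s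
  have hM0 : (0 : F) < M := by exact_mod_cast hM
  have h6 : (0 : F) < (n 0 * n 2 + n 1 * n 3 + 2 * (n 0 * n 3)) * M := by positivity
  have h7 : (n 0 * n 2 + n 1 * n 3 + 2 * (n 0 * n 3)) * M = 0 := by linear_combination s
  exact h6.ne' h7

end Pool.Agent.Helper59.FN
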